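import Mathlib

open Topology Filter Set MeasureTheory

namespace Pool.Agent.Results.MP_aab88c_gt.FreeTVSClosedEmbedding

universe u

/-- `(V, i)` is a free topological vector space on the space `X`: `V` is a Hausdorff real
topological vector space, `i : X → V` is continuous, and every continuous map from `X` to a
Hausdorff real topological vector space `E` extends uniquely (along `i`) to a continuous linear
map `V → E`. -/
structure IsFreeTVS (X : Type u) [TopologicalSpace X] (V : Type u) [AddCommGroup V] [Module ℝ V]
    [TopologicalSpace V] (i : X → V) : Prop where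
  isTopologicalAddGroup : IsTopologicalAddGroup V
  continuousSMul : ContinuousSMul ℝ V
  t2Space : T2Space V
  continuous : Continuous i
  universal : ∀ (E : Type u) [AddCommGroup E] [Module ℝ E] [TopologicalSpace E]
    [IsTopologicalAddGroup E] [ContinuousSMul ℝ E] [T2Space E] (f : X → E), Continuous f →
    ∃! g : V →L[ℝ] E, ∀ x, g (i x) = f x

/-! ### Existence of free topological vector spaces (not used in the main result) -/

section Existence

/-- The free real vector space on `X`. -/
def FV (X : Type u) : Type u := X →₀ ℝ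

noncomputable instance (X : Type u) : AddCommGroup (FV X) :=
  inferInstanceAs (AddCommGroup (X →₀ ℝ))
noncomputable instance (X : Type u) : Module ℝ (FV X) := inferInstanceAs (Module ℝ (X →₀ ℝ))

/-- The canonical map `X → FV X`. -/
noncomputable def iota {X : Type u} (x : X) : FV X := Finsupp.single x 1

/-- The class of vector topologies on `FV X` that make `iota` continuous. -/
def vecTops (X : Type u) [TopologicalSpace X] : Set (TopologicalSpace (FV X)) :=
  {t | @IsTopologicalAddGroup (FV X) t _ ∧ @ContinuousSMul ℝ (FV X) _ _ t ∧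
    @Continuous X (FV X) _ t iota}

/-- The finest vector topology on `FV X` that makes `iota` continuous. -/
instance (X : Type u) [TopologicalSpace X] : TopologicalSpace (FV X) := sInf (vecTops X)

lemma existence (X : Type u) [TopologicalSpace X] [T35Space X] :
    IsFreeTVS X (FV X) iota := by
  classical
  have hgrp : IsTopologicalAddGroup (FV X) := topologicalAddGroup_sInf fun t ht => ht.1
  have hsmul : ContinuousSMul ℝ (FV X) := continuousSMul_sInf fun t ht => ht.2.1
  have hcont : Continuous (iota : X → FV X) := continuous_sInf_rng.2 fun t ht => ht.2.2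
  have huniv : ∀ (E : Type u) [AddCommGroup E] [Module ℝ E] [TopologicalSpace E]
    [IsTopologicalAddGroup E] [ContinuousSMul ℝ E] (f : X → E), Continuous f →
    ∃ g : FV X →L[ℝ] E, (∀ x, g (iota x) = f x) ∧
      ∀ v : FV X, g v = Finsupp.linearCombination ℝ f v := by
    intro E _ _ _ _ _ f hf
    let L : FV X →ₗ[ℝ] E := Finsupp.linearCombination ℝ f
    have hL : ∀ x, L (iota x) = f x := by
      intro x
      change Finsupp.linearCombination ℝ f (Finsupp.single x 1) = f x
      simp
    have hLc : Continuous L := by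
      have hmem : TopologicalSpace.induced L inferInstance ∈ vecTops X := by
        refine ⟨topologicalAddGroup_induced L, ?_, ?_⟩
        · exact continuousSMul_induced L
        · rw [continuous_induced_rng]
          have : (L ∘ iota : X → E) = f := funext hL
          rw [this]; exact hf
      rw [continuous_iff_le_induced]
      exact sInf_le hmem
    exact ⟨⟨L, hLc⟩, hL, fun v => rfl⟩
  refine ⟨hgrp, hsmul, ?_, hcont, ?_⟩
  · -- Hausdorff
    have hsep : ∀ v : FV X, v ≠ 0 → ∃ g : FV X →L[ℝ] ULift.{u} ℝ, g v ≠ 0 := by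
      intro v hv
      let w : X →₀ ℝ := v
      have hw : w ≠ 0 := hv
      obtain ⟨x, hx⟩ := Finsupp.support_nonempty_iff.2 hw
      let K : Set X := (w.support.erase x : Finset X)
      have hK : IsClosed K := (Finset.finite_toSet _).isClosed
      have hxK : x ∉ K := by simp [K]
      obtain ⟨f, hf, hfx, hfK⟩ := CompletelyRegularSpace.completely_regular x K hK hxK
      let F : X → ULift.{u} ℝ := fun y => ⟨1 - (f y : ℝ)⟩
      have hF : Continuous F := by
        apply continuous_uliftUp.comp
        exact continuous_const.sub (continuous_subtype_val.comp hf)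
      obtain ⟨g, _, hg⟩ := huniv (ULift.{u} ℝ) F hF
      refine ⟨g, ?_⟩
      rw [hg]
      have hsum : Finsupp.linearCombination ℝ F w = w x • F x := by
        rw [Finsupp.linearCombination_apply, Finsupp.sum]
        apply Finset.sum_eq_single_of_mem x hx
        intro y hy hyx
        have : y ∈ K := by
          simp only [K, Finset.coe_erase, Set.mem_sdiff, Finset.mem_coe, mem_singleton_iff]
          exact ⟨hy, hyx⟩
        have h1 : f y = 1 := hfK this
        have h2 : F y = 0 := by
          apply ULift.ext
          simp [F, h1]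
        rw [h2, smul_zero]
      change Finsupp.linearCombination ℝ F w ≠ 0
      rw [hsum]
      have h3 : F x = ⟨1⟩ := by
        apply ULift.ext
        simp [F, hfx]
      rw [h3]
      intro h4
      have h5 := congrArg ULift.down h4
      simp at h5
      simp at hx
      exact hx h5
    refine ⟨fun a b hab => ?_⟩
    obtain ⟨g, hg⟩ := hsep (a - b) (sub_ne_zero.2 hab)
    have hg' : g a ≠ g b := by
      intro h
      apply hg
      rw [map_sub, h, sub_self]
    obtain ⟨s, t, hs, ht, has, hbt, hst⟩ := t2_separation hg'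
    exact ⟨g ⁻¹' s, g ⁻¹' t, hs.preimage g.continuous, ht.preimage g.continuous, has, hbt,
      hst.preimage g⟩
  · intro E _ _ _ _ _ _ f hf
    obtain ⟨g, hg, _⟩ := huniv E f hf
    refine ⟨g, hg, ?_⟩
    intro g' hg'
    ext v
    have h1 : (g' : FV X →ₗ[ℝ] E) = (g : FV X →ₗ[ℝ] E) := by
      apply Finsupp.lhom_ext' (M := ℝ) (α := X)
      intro x
      ext
      change g' (iota x) = g (iota x)
      rw [hg, hg']
    exact congrArg (fun L : FV X →ₗ[ℝ] E => L v) h1

end Existence

/-! ### Step functions with the topology of convergence in measure -/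

section StepFun

variable (E : Type u) [AddCommGroup E] [Module ℝ E]

/-- Functions `ℝ → E` with finite range, as a submodule. -/
def stepSub : Submodule ℝ (ℝ → E) where
  carrier := {g | (Set.range g).Finite}
  zero_mem' := (Set.finite_singleton (0 : E)).subset (by rintro _ ⟨t, rfl⟩; simp)
  add_mem' := by
    intro a b ha hb
    refine ((ha.prod hb).image (fun p : E × E => p.1 + p.2)).subset ?_
    rintro _ ⟨t, rfl⟩
    exact ⟨(a t, b t), ⟨⟨t, rfl⟩, ⟨t, rfl⟩⟩, rfl⟩
  smul_mem' := by
    intro c a ha
    refine (ha.image (fun p : E => c • p)).subset ?_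
    rintro _ ⟨t, rfl⟩
    exact ⟨a t, ⟨t, rfl⟩, rfl⟩

/-- The space of functions `ℝ → E` with finite range. -/
def StepFun : Type u := stepSub E

instance : AddCommGroup (StepFun E) := inferInstanceAs (AddCommGroup (stepSub E))
instance : Module ℝ (StepFun E) := inferInstanceAs (Module ℝ (stepSub E))

/-- The underlying function. -/
def StepFun.fn {E : Type u} [AddCommGroup E] [Module ℝ E] (g : StepFun E) : ℝ → E :=
  (g : stepSub E).1

variable {E}

lemma fn_add (g h : StepFun E) (t : ℝ) : (g + h).fn t = g.fn t + h.fn t := rfl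
lemma fn_neg (g : StepFun E) (t : ℝ) : (-g).fn t = -(g.fn t) := rfl
lemma fn_smul (c : ℝ) (g : StepFun E) (t : ℝ) : (c • g).fn t = c • g.fn t := rfl
lemma fn_zero (t : ℝ) : (0 : StepFun E).fn t = 0 := rfl
lemma fn_sub (g h : StepFun E) (t : ℝ) : (g - h).fn t = g.fn t - h.fn t := rfl

/-- Lebesgue measure on `[0,1)`. -/
noncomputable def mu : Measure ℝ := volume.restrict (Ico (0 : ℝ) 1)

lemma mu_univ : mu (univ : Set ℝ) = 1 := by
  unfold mu
  simp

/-- Basic neighbourhood of zero. -/
def NN (U : Set E) (ε : ENNReal) : Set (StepFun E) := {g | mu {t | g.fn t ∉ U} < ε}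

lemma NN_mono {U V : Set E} {ε δ : ENNReal} (hUV : U ⊆ V) (h : ε ≤ δ) : NN U ε ⊆ NN V δ := by
  intro g hg
  refine lt_of_lt_of_le (lt_of_le_of_lt (measure_mono ?_) hg) h
  intro t ht hU
  exact ht (hUV hU)

variable [TopologicalSpace E] [IsTopologicalAddGroup E] [ContinuousSMul ℝ E]

variable (E) in
/-- The neighbourhood basis of convergence in measure. -/
noncomputable def stepBasis : ModuleFilterBasis ℝ (StepFun E) where
  sets := {A | ∃ U ∈ 𝓝 (0 : E), ∃ ε : ENNReal, 0 < ε ∧ A = NN U ε}
  nonempty := ⟨NN univ 1, univ, univ_mem, 1, one_pos, rfl⟩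
  inter_sets := by
    rintro _ _ ⟨U, hU, ε, hε, rfl⟩ ⟨V, hV, δ, hδ, rfl⟩
    refine ⟨NN (U ∩ V) (min ε δ), ⟨U ∩ V, inter_mem hU hV, min ε δ, lt_min hε hδ, rfl⟩, ?_⟩
    exact subset_inter (NN_mono inter_subset_left (min_le_left _ _))
      (NN_mono inter_subset_right (min_le_right _ _))
  zero' := by
    rintro _ ⟨U, hU, ε, hε, rfl⟩
    have : {t : ℝ | (0 : StepFun E).fn t ∉ U} = ∅ := by
      ext t
      simp [fn_zero, mem_of_mem_nhds hU]
    change mu _ < ε
    rw [this, measure_empty]
    exact hε
  add' := by
    rintro _ ⟨U, hU, ε, hε, rfl⟩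
    obtain ⟨V, hV, hVU⟩ := exists_nhds_zero_half hU
    refine ⟨NN V (ε / 2), ⟨V, hV, ε / 2, ENNReal.half_pos hε.ne', rfl⟩, ?_⟩
    rintro _ ⟨g, hg, h, hh, rfl⟩
    have hsub : {t | (g + h).fn t ∉ U} ⊆ {t | g.fn t ∉ V} ∪ {t | h.fn t ∉ V} := by
      intro t ht
      by_contra hcon
      simp only [mem_union, mem_ofPred_eq, not_or, not_not] at hcon
      exact ht (hVU _ hcon.1 _ hcon.2)
    calc mu {t | (g + h).fn t ∉ U} ≤ mu ({t | g.fn t ∉ V} ∪ {t | h.fn t ∉ V}) :=
          measure_mono hsub
      _ ≤ mu {t | g.fn t ∉ V} + mu {t | h.fn t ∉ V} := measure_union_le _ _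
      _ < ε / 2 + ε / 2 := ENNReal.add_lt_add hg hh
      _ = ε := ENNReal.add_halves ε
  neg' := by
    rintro _ ⟨U, hU, ε, hε, rfl⟩
    refine ⟨NN (-U) ε, ⟨-U, ?_, ε, hε, rfl⟩, ?_⟩
    · exact neg_mem_nhds_zero E hU
    · intro g hg
      change mu {t | (-g).fn t ∉ U} < ε
      have : {t | (-g).fn t ∉ U} = {t | g.fn t ∉ -U} := by
        ext t
        simp [fn_neg]
      rw [this]
      exact hg
  conj' := by
    rintro g A hA
    refine ⟨A, hA, ?_⟩
    intro h hh
    simpa using hh
  smul' := by
    rintro _ ⟨U, hU, ε, hε, rfl⟩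
    have hc : Tendsto (fun p : ℝ × E => p.1 • p.2) (𝓝 ((0 : ℝ), (0 : E))) (𝓝 (0 : E)) := by
      have := (continuous_smul (M := ℝ) (X := E)).tendsto ((0 : ℝ), (0 : E))
      simpa using this
    have hpre := hc hU
    rw [mem_map, nhds_prod_eq, mem_prod_iff] at hpre
    obtain ⟨S, hS, W, hW, hSW⟩ := hpre
    refine ⟨S, hS, NN W ε, ⟨W, hW, ε, hε, rfl⟩, ?_⟩
    rintro _ ⟨c, hc, g, hg, rfl⟩
    refine lt_of_le_of_lt (measure_mono ?_) hg
    intro t ht hW'
    exact ht (hSW ⟨hc, hW'⟩ : (c, g.fn t) ∈ _)
  smul_left' := by
    rintro c _ ⟨U, hU, ε, hε, rfl⟩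
    have hc : Tendsto (fun e : E => c • e) (𝓝 0) (𝓝 0) := by
      have := (continuous_const_smul c (T := E)).tendsto 0
      simpa using this
    refine ⟨NN ((fun e : E => c • e) ⁻¹' U) ε, ⟨_, hc hU, ε, hε, rfl⟩, ?_⟩
    intro g hg
    exact hg
  smul_right' := by
    rintro g _ ⟨U, hU, ε, hε, rfl⟩
    have hfin : (Set.range g.fn).Finite := (g : stepSub E).2
    have hev : ∀ᶠ c : ℝ in 𝓝 0, ∀ e ∈ Set.range g.fn, c • e ∈ U := by
      rw [eventually_all_finite hfin]
      intro e _
      have : Tendsto (fun c : ℝ => c • e) (𝓝 0) (𝓝 0) := by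
        have h1 : Continuous (fun c : ℝ => c • e) := continuous_id.smul continuous_const
        have := h1.tendsto 0
        simpa using this
      exact this hU
    filter_upwards [hev] with c hc
    have : {t : ℝ | (c • g).fn t ∉ U} = ∅ := by
      ext t
      simp only [mem_ofPred_eq, mem_empty_iff_false, iff_false, not_not]
      exact hc _ ⟨t, rfl⟩
    change mu _ < ε
    rw [this, measure_empty]
    exact hε

noncomputable instance : TopologicalSpace (StepFun E) := (stepBasis E).topology

instance : IsTopologicalAddGroup (StepFun E) := (stepBasis E).toAddGroupFilterBasis.isTopologicalAddGroup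

instance : ContinuousSMul ℝ (StepFun E) := (stepBasis E).continuousSMul

lemma nhds_basis (g : StepFun E) {A : Set (StepFun E)} :
    A ∈ 𝓝 g ↔ ∃ U ∈ 𝓝 (0 : E), ∃ ε : ENNReal, 0 < ε ∧ ∀ h, h - g ∈ NN U ε → h ∈ A := by
  have hb := (stepBasis E).toAddGroupFilterBasis.nhds_hasBasis g
  rw [hb.mem_iff]
  constructor
  · rintro ⟨_, ⟨U, hU, ε, hε, rfl⟩, hsub⟩
    refine ⟨U, hU, ε, hε, fun h hh => hsub ⟨h - g, hh, ?_⟩⟩
    simp
  · rintro ⟨U, hU, ε, hε, hsub⟩
    refine ⟨NN U ε, ⟨U, hU, ε, hε, rfl⟩, ?_⟩
    rintro _ ⟨k, hk, rfl⟩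
    apply hsub
    simpa using hk

/-- The constant function. -/
def const (e : E) : StepFun E :=
  (⟨fun _ => e, (Set.finite_singleton e).subset (by rintro _ ⟨t, rfl⟩; simp)⟩ : stepSub E)

omit [TopologicalSpace E] [IsTopologicalAddGroup E] [ContinuousSMul ℝ E] in
lemma fn_const (e : E) (t : ℝ) : (const e).fn t = e := rfl

variable (E) in
/-- Constants, as a linear map. -/
def constL : E →ₗ[ℝ] StepFun E where
  toFun := const
  map_add' := fun _ _ => rfl
  map_smul' := fun _ _ => rfl

lemma const_inducing : IsInducing (constL E) := by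
  rw [isInducing_iff_nhds]
  intro e
  apply le_antisymm
  · rw [← tendsto_iff_comap]
    intro A hA
    rw [nhds_basis] at hA
    obtain ⟨U, hU, ε, hε, hsub⟩ := hA
    have h1 : ∀ᶠ e' in 𝓝 e, e' - e ∈ U := by
      have : Tendsto (fun e' : E => e' - e) (𝓝 e) (𝓝 0) := by
        have h2 : Continuous (fun e' : E => e' - e) := continuous_id.sub continuous_const
        have := h2.tendsto e
        simpa using this
      exact this hU
    rw [mem_map]
    filter_upwards [h1] with e' he'
    apply hsub
    have : {t : ℝ | (constL E e' - constL E e).fn t ∉ U} = ∅ := by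
      ext t
      simp only [mem_ofPred_eq, mem_empty_iff_false, iff_false, not_not]
      exact he'
    change mu _ < ε
    rw [this, measure_empty]
    exact hε
  · intro A hA
    rw [mem_comap]
    refine ⟨{h | h - constL E e ∈ NN ((fun u => e + u) ⁻¹' A) 1}, ?_, ?_⟩
    · rw [nhds_basis]
      refine ⟨(fun u => e + u) ⁻¹' A, ?_, 1, one_pos, fun h hh => hh⟩
      have h2 : Continuous (fun u : E => e + u) := continuous_const.add continuous_id
      have := h2.tendsto 0
      rw [add_zero] at this
      exact this hA
    · intro e' he'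
      by_contra hcon
      have : {t : ℝ | (constL E e' - constL E e).fn t ∉ (fun u => e + u) ⁻¹' A} = univ := by
        ext t
        simp only [mem_ofPred_eq, mem_univ, iff_true]
        change ¬ (e + (e' - e) ∈ A)
        simpa using hcon
      change mu _ < 1 at he'
      rw [this, mu_univ] at he'
      exact lt_irrefl _ he'

end StepFun

/-! ### The Dugundji type extension -/

section Extension

variable {X : Type u} [MetricSpace X] {Y : Set X} {E : Type u} [AddCommGroup E] [Module ℝ E]
  [TopologicalSpace E] [IsTopologicalAddGroup E] [ContinuousSMul ℝ E]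

/-- A continuous map from a closed subset of a metric space to a topological vector space `E`
extends to a continuous map into the space of step functions over `E`. -/
lemma extension (hY : IsClosed Y) (f : Y → E) (hf : Continuous f) :
    ∃ F : X → StepFun E, Continuous F ∧ ∀ y : Y, F y = const (f y) := by
  classical
  by_cases hne : Y.Nonempty
  swap
  · rw [not_nonempty_iff_eq_empty] at hne
    subst hne
    exact ⟨fun _ => 0, continuous_const, fun y => y.2.elim⟩
  -- the open complement
  let Z : Type u := {x : X // x ∉ Y}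
  have hpos : ∀ z : Z, 0 < Metric.infDist z.1 Y := fun z => by
    rw [← hY.notMem_iff_infDist_pos hne]
    exact z.2
  have hchoose : ∀ z : Z, ∃ a : Y, dist z.1 a.1 < 2 * Metric.infDist z.1 Y := by
    intro z
    have h1 : Metric.infDist z.1 Y < 2 * Metric.infDist z.1 Y := by
      have := hpos z
      linarith
    obtain ⟨a, ha, hda⟩ := (Metric.infDist_lt_iff hne).1 h1
    exact ⟨⟨a, ha⟩, hda⟩
  choose a ha using hchoose
  let U : Z → Set Z := fun z => Metric.ball z (Metric.infDist z.1 Y / 4)
  obtain ⟨ψ, hψ⟩ := BumpCovering.exists_isSubordinate (s := (univ : Set Z)) isClosed_univ U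
    (fun z => Metric.isOpen_ball) (by
      intro z _
      refine mem_iUnion.2 ⟨z, Metric.mem_ball_self ?_⟩
      have := hpos z
      linarith)
  -- well order on the index set
  let r : Z → Z → Prop := WellOrderingRel
  have hr : IsWellOrder Z r := WellOrderingRel.isWellOrder
  have hwf : WellFounded r := hr.wf
  let S : Z → ℝ → Set Z := fun z t => {i | t < ψ i z}
  have hS : ∀ z t, t < 1 → (S z t).Nonempty := by
    intro z t ht
    refine ⟨ψ.ind z (mem_univ z), ?_⟩
    change t < ψ (ψ.ind z (mem_univ z)) z
    rw [ψ.ind_apply z (mem_univ z)]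
    exact ht
  let idx : Z → ℝ → Z := fun z t => if h : (S z t).Nonempty then hwf.min (S z t) h else z
  have hidx : ∀ z t, t < 1 → t < ψ (idx z t) z := by
    intro z t ht
    have h := hS z t ht
    have : idx z t = hwf.min (S z t) h := dif_pos h
    rw [this]
    exact hwf.min_mem (S z t) h
  let G : Z → ℝ → E := fun z t => if t ∈ Ico (0 : ℝ) 1 then f (a (idx z t)) else 0
  have hGfin : ∀ z, (Set.range (G z)).Finite := by
    intro z
    have h1 : {i | ψ i z ≠ 0}.Finite := ψ.point_finite z
    refine ((h1.image (fun i => f (a i))).union (Set.finite_singleton (0 : E))).subset ?_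
    rintro _ ⟨t, rfl⟩
    by_cases ht : t ∈ Ico (0 : ℝ) 1
    · left
      refine ⟨idx z t, ?_, ?_⟩
      · have := hidx z t ht.2
        exact (lt_of_le_of_lt ht.1 this).ne'
      · simp only [G, if_pos ht]
    · right
      simp only [G, if_neg ht, mem_singleton_iff]
  let H : Z → StepFun E := fun z => (⟨G z, hGfin z⟩ : stepSub E)
  have hHfn : ∀ z t, (H z).fn t = G z t := fun z t => rfl
  let F : X → StepFun E := fun x => if h : x ∈ Y then const (f ⟨x, h⟩) else H ⟨x, h⟩
  refine ⟨F, ?_, fun y => by simp [F]⟩
  rw [continuous_iff_continuousAt]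
  intro x0
  by_cases hx0 : x0 ∈ Y
  · -- continuity at points of `Y`
    intro A hA
    rw [nhds_basis] at hA
    obtain ⟨V, hV, ε, hε, hsub⟩ := hA
    have hFx0 : F x0 = const (f ⟨x0, hx0⟩) := by simp [F, hx0]
    have h1 : ∀ᶠ y in 𝓝 (⟨x0, hx0⟩ : Y), f y - f ⟨x0, hx0⟩ ∈ V := by
      have h2 : Continuous (fun y : Y => f y - f ⟨x0, hx0⟩) := hf.sub continuous_const
      have h3 := h2.tendsto ⟨x0, hx0⟩
      simp only [sub_self] at h3
      exact h3 hV
    obtain ⟨δ, hδ, hball⟩ := Metric.eventually_nhds_iff.1 h1
    rw [mem_map]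
    have h4 : Metric.ball x0 (δ / 4) ∈ 𝓝 x0 := Metric.ball_mem_nhds _ (by linarith)
    filter_upwards [h4] with x hx
    rw [Metric.mem_ball] at hx
    apply hsub
    have key : ∀ t ∈ Ico (0 : ℝ) 1, (F x - F x0).fn t ∈ V := by
      intro t ht
      rw [fn_sub, hFx0, fn_const]
      by_cases hxY : x ∈ Y
      · have : F x = const (f ⟨x, hxY⟩) := by simp [F, hxY]
        rw [this, fn_const]
        apply hball
        change dist x x0 < δ
        linarith
      · have hF : F x = H ⟨x, hxY⟩ := by simp [F, hxY]
        rw [hF, hHfn]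
        simp only [G, if_pos ht]
        apply hball
        set z : Z := ⟨x, hxY⟩ with hz
        set i : Z := idx z t with hi
        have hψi : t < ψ i z := hidx z t ht.2
        have hzi : z ∈ U i := by
          apply hψ i
          apply subset_tsupport
          exact (lt_of_le_of_lt ht.1 hψi).ne'
        have hzi' : dist x i.1 < Metric.infDist i.1 Y / 4 := Metric.mem_ball.1 hzi
        have hai := ha i
        have h5 : Metric.infDist i.1 Y ≤ Metric.infDist x Y + dist i.1 x :=
          Metric.infDist_le_infDist_add_dist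
        have h6 : Metric.infDist x Y ≤ dist x x0 := Metric.infDist_le_dist_of_mem hx0
        have h7 : dist (a i).1 x0 ≤ dist (a i).1 i.1 + dist i.1 x + dist x x0 :=
          dist_triangle4 _ _ _ _
        rw [dist_comm (a i).1 i.1] at h7
        rw [dist_comm i.1 x] at h5 h7
        change dist (a i).1 x0 < δ
        linarith
    have hzero : mu {t | (F x - F x0).fn t ∉ V} = 0 := by
      unfold mu
      rw [Measure.restrict_apply' measurableSet_Ico]
      have : {t | (F x - F x0).fn t ∉ V} ∩ Ico (0 : ℝ) 1 = ∅ := by
        ext t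
        simp only [mem_inter_iff, mem_ofPred_eq, mem_empty_iff_false, iff_false, not_and']
        intro ht hn
        exact hn (key t ht)
      rw [this, measure_empty]
    change mu _ < ε
    rw [hzero]
    exact hε
  · -- continuity off `Y`
    have hopen : IsOpenEmbedding (Subtype.val : Z → X) := hY.isOpen_compl.isOpenEmbedding_subtypeVal
    have hcomp : F ∘ (Subtype.val : Z → X) = H := by
      funext z
      have hz : z.1 ∉ Y := z.2
      simp [F, hz]
    have hiff := hopen.continuousAt_iff (f := (Subtype.val : Z → X)) (g := F)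
      (x := (⟨x0, hx0⟩ : Z))
    rw [← hiff, hcomp]
    set z0 : Z := ⟨x0, hx0⟩ with hz0
    intro A hA
    rw [nhds_basis] at hA
    obtain ⟨V, hV, ε, hε, hsub⟩ := hA
    obtain ⟨W, hW, hWfin⟩ := ψ.locallyFinite z0
    let I0 : Finset Z := hWfin.toFinset
    have hI0 : ∀ i z, z ∈ W → i ∉ I0 → ψ i z = 0 := by
      intro i z hz hi
      by_contra hne'
      apply hi
      rw [Set.Finite.mem_toFinset]
      exact ⟨z, hne', hz⟩
    have hz0W : z0 ∈ W := mem_of_mem_nhds hW
    have hlim : Tendsto (fun z : Z => ∑ i ∈ I0, ENNReal.ofReal |ψ i z - ψ i z0|) (𝓝 z0)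
        (𝓝 0) := by
      have h1 : Continuous (fun z : Z => ∑ i ∈ I0, ENNReal.ofReal |ψ i z - ψ i z0|) := by
        apply continuous_finsetSum
        intro i _
        exact ENNReal.continuous_ofReal.comp
          (((ψ i).continuous.sub continuous_const).abs)
      have h2 := h1.tendsto z0
      simpa using h2
    have hev : ∀ᶠ z in 𝓝 z0, ∑ i ∈ I0, ENNReal.ofReal |ψ i z - ψ i z0| < ε :=
      hlim.eventually (gt_mem_nhds hε)
    rw [mem_map]
    filter_upwards [hev, hW] with z hz hzW
    apply hsub
    -- the exceptional set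
    have hexc : {t | (H z - H z0).fn t ∉ V} ∩ Ico (0 : ℝ) 1 ⊆
        ⋃ i ∈ I0, Ico (min (ψ i z) (ψ i z0)) (max (ψ i z) (ψ i z0)) := by
      rintro t ⟨htV, ht⟩
      by_contra hcon
      simp only [mem_iUnion, mem_Ico, not_exists, not_and, not_lt] at hcon
      have hSS : S z t = S z0 t := by
        ext i
        change t < ψ i z ↔ t < ψ i z0
        by_cases hi : i ∈ I0
        · have h1 := hcon i hi
          constructor
          · intro h2
            by_contra h3
            rw [not_lt] at h3
            have h4 := h1 ((min_le_right _ _).trans h3)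
            exact absurd (lt_of_lt_of_le h2 (le_max_left _ (ψ i z0))) (not_lt.2 h4)
          · intro h2
            by_contra h3
            rw [not_lt] at h3
            have h4 := h1 ((min_le_left _ _).trans h3)
            exact absurd (lt_of_lt_of_le h2 (le_max_right (ψ i z) _)) (not_lt.2 h4)
        · rw [hI0 i z hzW hi, hI0 i z0 hz0W hi]
      have hid : idx z t = idx z0 t := by
        have h1 := hS z t ht.2
        have h2 := hS z0 t ht.2
        have e1 : idx z t = hwf.min (S z t) h1 := dif_pos h1
        have e2 : idx z0 t = hwf.min (S z0 t) h2 := dif_pos h2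
        rw [e1, e2]
        congr 1
      apply htV
      rw [fn_sub, hHfn, hHfn]
      simp only [G, if_pos ht, hid, sub_self]
      exact mem_of_mem_nhds hV
    change mu _ < ε
    unfold mu
    rw [Measure.restrict_apply' measurableSet_Ico]
    refine lt_of_le_of_lt ?_ hz
    refine (measure_mono hexc).trans ?_
    refine (measure_biUnion_finset_le I0 _).trans ?_
    apply Finset.sum_le_sum
    intro i _
    rw [Real.volume_Ico, max_sub_min_eq_abs']

end Extension

/-- If `X` is metrizable and `Y` is a closed subset of `X`, then for all free topological vector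
spaces `(VX, iX)` on `X` and `(VY, iY)` on `Y`, the canonical continuous linear map `VY → VX`
(the one extending the inclusion of `Y` in `X`) is a topological embedding. -/
theorem result (X : Type u) [TopologicalSpace X] [TopologicalSpace.MetrizableSpace X]
    (Y : Set X) (hY : IsClosed Y)
    (VX : Type u) [AddCommGroup VX] [Module ℝ VX] [TopologicalSpace VX] (iX : X → VX)
    (hX : IsFreeTVS X VX iX)
    (VY : Type u) [AddCommGroup VY] [Module ℝ VY] [TopologicalSpace VY] (iY : Y → VY)
    (hVY : IsFreeTVS Y VY iY) :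
    ∃ T : VY →L[ℝ] VX, (∀ y : Y, T (iY y) = iX y) ∧ IsEmbedding T := by
  let _ : MetricSpace X := TopologicalSpace.metrizableSpaceMetric X
  have _ := hX.isTopologicalAddGroup
  have _ := hX.continuousSMul
  have _ := hX.t2Space
  have _ := hVY.isTopologicalAddGroup
  have _ := hVY.continuousSMul
  have _ := hVY.t2Space
  obtain ⟨T, hT, _⟩ := hVY.universal VX (fun y : Y => iX y)
    (hX.continuous.comp continuous_subtype_val)
  refine ⟨T, hT, ?_⟩
  obtain ⟨F, hF, hFY⟩ := extension hY iY hVY.continuous
  -- the Hausdorff quotient of the space of step functions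
  let Q : StepFun VY →L[ℝ] SeparationQuotient (StepFun VY) := SeparationQuotient.mkCLM ℝ _
  have hQ : ∀ g, Q g = SeparationQuotient.mk g := fun g => rfl
  obtain ⟨R, hR, _⟩ := hX.universal (SeparationQuotient (StepFun VY)) (fun x => Q (F x))
    (Q.continuous.comp hF)
  have hcind := const_inducing (E := VY)
  let C : VY →L[ℝ] StepFun VY := ⟨constL VY, hcind.continuous⟩
  -- the composition is the constants map
  have hcomp : R.comp T = Q.comp C := by
    obtain ⟨g, _, hg⟩ := hVY.universal (SeparationQuotient (StepFun VY))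
      (fun y => Q (const (iY y))) (by
        have : Continuous (fun y : Y => Q (C (iY y))) :=
          Q.continuous.comp (C.continuous.comp hVY.continuous)
        exact this)
    have e1 : R.comp T = g := hg _ (by
      intro y
      rw [ContinuousLinearMap.comp_apply, hT, hR, hFY])
    have e2 : Q.comp C = g := hg _ (by
      intro y
      rfl)
    rw [e1, e2]
  have hemb : IsEmbedding (R ∘ T) := by
    have h1 : (R ∘ T : VY → _) = Q ∘ C := by
      funext v
      exact congrArg (fun L : VY →L[ℝ] SeparationQuotient (StepFun VY) => L v) hcomp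
    rw [h1]
    have hind : IsInducing (Q ∘ C) := by
      have hq : IsInducing (Q : StepFun VY → _) := SeparationQuotient.isInducing_mk
      exact hq.comp hcind
    exact hind.isEmbedding
  exact IsEmbedding.of_comp T.continuous R.continuous hemb

end Pool.Agent.Results.MP_aab88c_gt.FreeTVSClosedEmbedding
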